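import Pool.Agent.helper10.QT.SpecY

/-!
# Project AT, row GQP: four clusters of positive rationals prime to `c` contain two elements with a good quotient
-/

set_option autoImplicit false

namespace Pool.Agent.AT

open Finset Pool.Agent.helper85.FC

/-- A positive rational prime to `c`: no prime divisor of `c` divides the numerator or the denominator. -/
theorem GQP_prime {c : ℤ} {x : ℚ} (hx : PrTo c x) {p : ℕ} (hp : p.Prime) (hpc : (p : ℤ) ∣ c) :
    ¬ p ∣ x.num.natAbs ∧ ¬ p ∣ x.den := by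
  have := Fact.mk hp
  have h0 := hx.2 p hp hpc
  have hcop : Nat.Coprime x.num.natAbs x.den := x.reduced
  have hnum : x.num.natAbs ≠ 0 := by
    have : 0 < x.num := Rat.num_pos.2 hx.1
    omega
  have hden : x.den ≠ 0 := x.den_nz
  have hval : (padicValNat p x.num.natAbs : ℤ) = (padicValNat p x.den : ℤ) := by
    have h1 : padicValRat p x = (padicValInt p x.num : ℤ) - (padicValNat p x.den : ℤ) := rfl
    rw [h0] at h1
    have h2 : (padicValInt p x.num : ℤ) = (padicValNat p x.num.natAbs : ℤ) := rfl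
    rw [h2] at h1
    linarith
  have hval' : padicValNat p x.num.natAbs = padicValNat p x.den := by exact_mod_cast hval
  have key : p ∣ x.num.natAbs ↔ p ∣ x.den := by
    rw [dvd_iff_padicValNat_ne_zero hnum, dvd_iff_padicValNat_ne_zero hden, hval']
  by_cases h : p ∣ x.num.natAbs
  · exact absurd (Nat.dvd_gcd h (key.1 h)) (by
      rw [Nat.Coprime] at hcop
      rw [hcop]
      exact fun h1 => hp.one_lt.ne' (Nat.dvd_one.1 h1))
  · exact ⟨h, fun h' => h (key.2 h')⟩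

/-- A common denominator for finitely many elements of `Gc c`. -/
theorem GQP_scale (c : ℤ) (T : Finset ℚˣ) (hT : ∀ x ∈ T, x ∈ Gc c) :
    ∃ (D : ℕ) (s : ℚˣ → ℕ), 0 < D ∧ ∀ x ∈ T, 0 < s x ∧ (s x : ℚ) = D * (x : ℚ) ∧
      ∀ p : ℕ, p.Prime → (p : ℤ) ∣ c → ¬ p ∣ s x := by
  refine ⟨∏ x ∈ T, (x : ℚ).den, fun x => (∏ y ∈ T.erase x, (y : ℚ).den) * (x : ℚ).num.natAbs,
    Finset.prod_pos fun x _ => (x : ℚ).den_pos, fun x hx => ?_⟩
  have hpos : 0 < (x : ℚ).num := Rat.num_pos.2 (hT x hx).1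
  refine ⟨Nat.mul_pos (Finset.prod_pos fun y _ => (y : ℚ).den_pos) (by omega), ?_, fun p hp hpc h => ?_⟩
  · have h1 : (((x : ℚ).num.natAbs : ℕ) : ℚ) = ((x : ℚ).num : ℚ) := by
      have h0 : (((x : ℚ).num.natAbs : ℕ) : ℤ) = (x : ℚ).num := Int.natAbs_of_nonneg hpos.le
      calc (((x : ℚ).num.natAbs : ℕ) : ℚ) = ((((x : ℚ).num.natAbs : ℕ) : ℤ) : ℚ) := (Int.cast_natCast _).symm
        _ = ((x : ℚ).num : ℚ) := by rw [h0]
    have h2 : (x : ℚ) * ((x : ℚ).den : ℚ) = ((x : ℚ).num : ℚ) := Rat.mul_den_eq_num _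
    have h3 : (∏ y ∈ T, (y : ℚ).den) = (∏ y ∈ T.erase x, (y : ℚ).den) * (x : ℚ).den :=
      (Finset.prod_erase_mul T (fun y : ℚˣ => (y : ℚ).den) hx).symm
    rw [Nat.cast_mul, h1, ← h2, h3, Nat.cast_mul]
    ring
  · rcases (Nat.Prime.dvd_mul hp).1 h with h | h
    · obtain ⟨y, hy, hdvd⟩ := (Prime.dvd_finsetProd_iff hp.prime _).1 h
      exact (GQP_prime (hT y (Finset.mem_of_mem_erase hy)) hp hpc).2 hdvd
    · exact (GQP_prime (hT x hx) hp hpc).1 h

/-- Forms `s n + c` with `s` prime to `c` are admissible. -/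
theorem GQP_adm {k : ℕ} (c : ℤ) (f : Fin k → ℕ × ℤ) (h2 : ∀ i, (f i).2 = c)
    (h1 : ∀ i, ∀ p : ℕ, p.Prime → (p : ℤ) ∣ c → ¬ p ∣ (f i).1) : Adm f := by
  intro p hp
  by_cases hpc : (p : ℤ) ∣ c
  · refine ⟨1, fun i h => ?_⟩
    rw [h2 i, Nat.cast_one, mul_one] at h
    have := (dvd_add_left hpc).1 h
    exact h1 i p hp hpc (by exact_mod_cast this)
  · refine ⟨0, fun i h => ?_⟩
    rw [h2 i, Nat.cast_zero, mul_zero, zero_add] at h
    exact hpc h

/-- If more than one of the forms is prime infinitely often, a pair is. -/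
theorem GQP_pair (f : Fin 4 → ℕ × ℤ) (hf : Many f) :
    ∃ i j, i ≠ j ∧ ∀ N : ℕ, ∃ n ≥ N, (ev (f i) n).Prime ∧ (ev (f j) n).Prime := by
  by_contra hcon
  push Not at hcon
  have h : ∀ i j : Fin 4, ∃ N : ℕ, i ≠ j → ∀ n, N ≤ n → (ev (f i) n).Prime → ¬ (ev (f j) n).Prime := by
    intro i j
    by_cases hij : i = j
    · exact ⟨0, fun h => absurd hij h⟩
    · obtain ⟨N, hN⟩ := hcon i j hij
      exact ⟨N, fun _ n hn => hN n hn⟩
  choose N hN using h
  obtain ⟨n, hn, hhits⟩ := hf (∑ i, ∑ j, N i j)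
  have hlarge : ∀ i j, N i j ≤ n := fun i j =>
    ((Finset.single_le_sum (f := fun j => N i j) (fun _ _ => Nat.zero_le _) (mem_univ j)).trans
      (Finset.single_le_sum (f := fun i => ∑ j, N i j) (fun _ _ => Nat.zero_le _) (mem_univ i))).trans hn
  have h1 : 1 < hits f n := by
    have h2 : (1 : ℝ) < (hits f n : ℝ) := by
      refine lt_trans ?_ hhits
      norm_num
    exact_mod_cast h2
  obtain ⟨i, hi, j, hj, hij⟩ := Finset.one_lt_card.1 h1
  simp only [mem_filter, mem_univ, true_and] at hi hj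
  exact hN i j hij n (hlarge i j) hi hj

theorem GQP (h1 : GQ1_stmt) : GQP_stmt := by
  classical
  rintro ⟨K, hK⟩
  refine ⟨K, fun c hc X hX hG => ?_⟩
  obtain ⟨hone, -, hform⟩ := h1
  by_cases hcom : ∃ i j, i ≠ j ∧ ∃ x, x ∈ X i ∧ x ∈ X j
  · obtain ⟨i, j, hij, x, hxi, hxj⟩ := hcom
    refine ⟨i, j, hij, x, hxi, x, hxj, ?_⟩
    rw [div_self']
    exact hone c
  · obtain ⟨D, s, hD, hs⟩ := GQP_scale c (univ.biUnion X) (by
      intro x hx
      obtain ⟨i, -, hi⟩ := mem_biUnion.1 hx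
      exact hG i x hi)
    have hs' : ∀ i, ∀ x ∈ X i, 0 < s x ∧ (s x : ℚ) = D * (x : ℚ) ∧
        ∀ p : ℕ, p.Prime → (p : ℤ) ∣ c → ¬ p ∣ s x := fun i x hx =>
      hs x (mem_biUnion.2 ⟨i, mem_univ i, hx⟩)
    have hDq : (D : ℚ) ≠ 0 := by exact_mod_cast hD.ne'
    have hinj : ∀ i j, ∀ x ∈ X i, ∀ y ∈ X j, s x = s y → x = y := by
      intro i j x hx y hy hxy
      have e1 := (hs' i x hx).2.1
      have e2 := (hs' j y hy).2.1
      rw [hxy, e2] at e1
      exact (Units.ext (mul_left_cancel₀ hDq e1)).symm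
    obtain ⟨f, hf, hmany⟩ := hK (fun i => (X i).image fun x => (s x, c)) (by
        intro i
        rw [Finset.card_image_of_injOn]
        · exact hX i
        · intro x hx y hy hxy
          exact hinj i i x hx y hy (Prod.mk.inj hxy).1) (by
        intro i f hf
        obtain ⟨x, hx, rfl⟩ := mem_image.1 hf
        exact (hs' i x hx).1) (by
        intro f hf
        rw [Fintype.mem_piFinset] at hf
        have hf' : ∀ i, ∃ x ∈ X i, f i = (s x, c) := fun i => by
          obtain ⟨x, hx, hxf⟩ := mem_image.1 (hf i)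
          exact ⟨x, hx, hxf.symm⟩
        choose x hx hfx using hf'
        refine ⟨GQP_adm c f (fun i => by rw [hfx i]) (fun i p hp hpc => ?_), fun i j hij => ?_⟩
        · rw [hfx i]
          exact (hs' i (x i) (hx i)).2.2 p hp hpc
        · by_contra hne
          rw [hfx i, hfx j] at hij
          have := hinj i j (x i) (hx i) (x j) (hx j) (Prod.mk.inj hij).1
          exact hcom ⟨i, j, hne, x i, hx i, this ▸ hx j⟩)
    rw [Fintype.mem_piFinset] at hf
    obtain ⟨i, j, hij, hpair⟩ := GQP_pair f hmany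
    obtain ⟨x, hx, hxf⟩ := mem_image.1 (hf i)
    obtain ⟨y, hy, hyf⟩ := mem_image.1 (hf j)
    refine ⟨i, j, hij, x, hx, y, hy, ?_⟩
    have hgood := hform c (s x) (s y) (hs' i x hx).1 (hs' j y hy).1 (by
      intro N
      obtain ⟨n, hn, hp, hq⟩ := hpair N
      refine ⟨n, hn, ?_, ?_⟩
      · rw [hxf]; exact hp
      · rw [hyf]; exact hq)
    have hq : ((s x : ℚ) / (s y : ℚ)) = ((x / y : ℚˣ) : ℚ) := by
      rw [(hs' i x hx).2.1, (hs' j y hy).2.1, Units.val_div_eq_div_val,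
        mul_div_mul_left _ _ hDq]
    rw [← hq]
    exact hgood

end Pool.Agent.AT
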